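import Pool.Agent.Lib.MP_ad55ca_co.Packed

/-!
# A 17 by 17 sign matrix of discrepancy 7

The first sixteen rows form a Hadamard matrix of order 16 with one column repeated; the last row
repeats the first one.
-/

namespace Pool.Agent.Results.MP_ad55ca_co.SeventeenBySeventeen

open Pool.Agent.Lib.MP_ad55ca_co

/-- A square matrix with all entries `1` or `-1`. -/
def IsSignMatrix {n : ℕ} (A : Matrix (Fin n) (Fin n) ℝ) : Prop :=
  ∀ i j, A i j = 1 ∨ A i j = -1

/-- A vector with all entries `1` or `-1`. -/
def IsSignVector {n : ℕ} (x : Fin n → ℝ) : Prop :=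
  ∀ i, x i = 1 ∨ x i = -1

/-- The discrepancy: the least value of the maximum norm of `A x` over sign vectors `x`
(the norm of `Fin n → ℝ` is the maximum norm). -/
noncomputable def disc {n : ℕ} (A : Matrix (Fin n) (Fin n) ℝ) : ℝ :=
  sInf {r : ℝ | ∃ x : Fin n → ℝ, IsSignVector x ∧ ‖A.mulVec x‖ = r}

/-- The constant `C*`: the supremum of `disc A / √n` over all `n ≥ 1` and all `n` by `n` sign
matrices `A`, taken in the extended reals. -/
noncomputable def Cstar : EReal :=
  sSup {r : EReal | ∃ n : ℕ, 1 ≤ n ∧ ∃ A : Matrix (Fin n) (Fin n) ℝ,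
    IsSignMatrix A ∧ ((disc A / Real.sqrt n : ℝ) : EReal) = r}

/-- The rows of the matrix as bit masks. -/
def rows : List ℕ :=
  [131011, 87381, 78643, 88489, 85543, 107941, 115711, 125041, 65731, 76621, 101659, 91801,
   126991, 105109, 81151, 104041, 131011]

/-- The `i`-th bit mask. -/
def row (i : ℕ) : ℕ := rows.getD i 0

/-- The matrix. -/
noncomputable def A17 : Matrix (Fin 17) (Fin 17) ℝ :=
  fun i j => if Nat.testBit (row i) j = true then 1 else -1

/-- The packed columns. -/
def cols : List (ℕ × ℕ) :=
  [(0, 80485752395443136602965282881),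
   (1238242344545279024661004352, 79247510050897857578304278529),
   (80466102628489901540911616001, 19649766953235062053666880),
   (79228464745719527124951371841, 1257287649723609478013911040),
   (80466107275934496612665262081, 19645119508639990300020800),
   (79228469543043917793414086721, 1257282852399218809551196160),
   (307028761284327474728960, 80485445366681852275490553921),
   (1237944762822803445723959360, 79247807632620333157241323521),
   (1257589880007863036511518720, 79228162515435273566453764161),
   (19347536633524315144585280, 80466404858809612287820697601),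
   (306953839686867191336960, 80485445441603449735773945921),
   (1237944835439120984152477760, 79247807560004015618812805121),
   (74958198140787752960, 80485752320484938462177529921),
   (1238242271893486980512874560, 79247510123549649622452408321),
   (1257585085025335378154885120, 79228167310417801224810397761),
   (19342886919106235136741440, 80466409508524030367828541441),
   (0, 80485752395443136602965282881)]

theorem cols_eq : cols = (List.range 17).map (colPair 17 row) := by decide +kernel

theorem go_true : go 2575544076654180371294889052192 1609715047908862732059305657620 2092629562281521551677097354906 cols 0 = true := by decide +kernel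

theorem key (b : ℕ → Bool) : ∃ i < 17, mism 17 (row i) b ≤ 5 ∨ 12 ≤ mism 17 (row i) b := by
  have h := cover 17 17 5 row (by norm_num) (by norm_num) 2575544076654180371294889052192 1609715047908862732059305657620 2092629562281521551677097354906
    (by decide +kernel) (by decide +kernel) (by decide +kernel) cols cols_eq go_true b
  simpa using h

/-- The pattern of a vector. -/
noncomputable def pat {n : ℕ} (x : Fin n → ℝ) (j : ℕ) : Bool :=
  if h : j < n then (if x ⟨j, h⟩ = 1 then true else false) else false

theorem mulVec_eq (x : Fin 17 → ℝ) (hx : IsSignVector x) (i : Fin 17) :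
    A17.mulVec x i = 17 - 2 * (mism 17 (row i) (pat x) : ℝ) := by
  have h1 : A17.mulVec x i = ∑ j : Fin 17,
      (1 - 2 * (if Nat.testBit (row i) (j : ℕ) = pat x (j : ℕ) then (0:ℝ) else 1)) := by
    unfold Matrix.mulVec dotProduct
    apply Finset.sum_congr rfl
    intro j _
    unfold A17 pat
    beta_reduce
    generalize Nat.testBit (row (i : ℕ)) (j : ℕ) = t
    have hne : (-1 : ℝ) ≠ 1 := by norm_num
    rcases hx j with h | h
    · cases t <;> simp [h] <;> norm_num
    · cases t <;> simp [h, hne] <;> norm_num
  rw [h1, Finset.sum_sub_distrib, ← Finset.mul_sum]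
  have h2 : ∑ j : Fin 17, (if Nat.testBit (row i) (j : ℕ) = pat x (j : ℕ) then (0:ℝ) else 1)
      = (mism 17 (row i) (pat x) : ℝ) := by
    unfold mism
    rw [Fin.sum_univ_eq_sum_range (fun j => if Nat.testBit (row i) j = pat x j then (0:ℝ) else 1) 17]
    push_cast
    rfl
  rw [h2]
  simp

theorem A17_sign : IsSignMatrix A17 := by
  intro i j
  unfold A17
  split_ifs
  · exact Or.inl rfl
  · exact Or.inr rfl

theorem seven_le (x : Fin 17 → ℝ) (hx : IsSignVector x) : 7 ≤ ‖A17.mulVec x‖ := by
  obtain ⟨i, hi, h⟩ := key (pat x)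
  refine le_trans ?_ (norm_le_pi_norm (A17.mulVec x) ⟨i, hi⟩)
  rw [mulVec_eq x hx, Real.norm_eq_abs]
  rcases h with h | h
  · have h' : (mism 17 (row i) (pat x) : ℝ) ≤ 5 := by exact_mod_cast h
    refine le_trans ?_ (le_abs_self _)
    show (7:ℝ) ≤ 17 - 2 * (mism 17 (row i) (pat x) : ℝ)
    linarith
  · have h' : (12:ℝ) ≤ (mism 17 (row i) (pat x) : ℝ) := by exact_mod_cast h
    refine le_trans ?_ (neg_le_abs _)
    show (7:ℝ) ≤ -(17 - 2 * (mism 17 (row i) (pat x) : ℝ))
    linarith

theorem disc_le {n : ℕ} (A : Matrix (Fin n) (Fin n) ℝ) (x : Fin n → ℝ) (hx : IsSignVector x)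
    (r : ℝ) (h : ‖A.mulVec x‖ ≤ r) : disc A ≤ r := by
  refine le_trans (csInf_le ⟨0, ?_⟩ ⟨x, hx, rfl⟩) h
  rintro _ ⟨y, _, rfl⟩
  exact norm_nonneg _

theorem le_disc {n : ℕ} (A : Matrix (Fin n) (Fin n) ℝ) (r : ℝ)
    (h : ∀ x : Fin n → ℝ, IsSignVector x → r ≤ ‖A.mulVec x‖) : r ≤ disc A := by
  refine le_csInf ⟨_, ⟨fun _ => 1, fun _ => Or.inl rfl, rfl⟩⟩ ?_
  rintro _ ⟨y, hy, rfl⟩
  exact h y hy

/-! ### Counting: no `17` by `17` sign matrix does better -/

/-- The mismatch set. -/
def mset (a b : Fin 17 → Bool) : Finset (Fin 17) := Finset.univ.filter (fun j => a j ≠ b j)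

/-- Subsets of `Fin 17` of size at most `4` or at least `13`. -/
def extreme : Finset (Finset (Fin 17)) :=
  (({0, 1, 2, 3, 4, 13, 14, 15, 16, 17} : Finset ℕ)).biUnion
    (fun k => Finset.powersetCard k Finset.univ)

theorem mem_extreme (S : Finset (Fin 17)) (h : S.card ≤ 4 ∨ 13 ≤ S.card) : S ∈ extreme := by
  unfold extreme
  rw [Finset.mem_biUnion]
  refine ⟨S.card, ?_, ?_⟩
  · have : S.card ≤ 17 := by simpa using Finset.card_le_univ S
    simp only [Finset.mem_insert, Finset.mem_singleton]
    omega
  · rw [Finset.mem_powersetCard]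
    exact ⟨Finset.subset_univ _, rfl⟩

theorem card_extreme : extreme.card ≤ 6428 := by
  unfold extreme
  refine le_trans Finset.card_biUnion_le ?_
  simp only [Finset.card_powersetCard, Finset.card_univ, Fintype.card_fin]
  decide +kernel

theorem exists_good (a : Fin 17 → Fin 17 → Bool) :
    ∃ b : Fin 17 → Bool, ∀ i, 5 ≤ (mset (a i) b).card ∧ (mset (a i) b).card ≤ 12 := by
  classical
  by_contra hcon
  push Not at hcon
  have hsub : (Finset.univ : Finset (Fin 17 → Bool)) ⊆
      (Finset.univ : Finset (Fin 17)).biUnion (fun i => extreme.image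
        (fun S => fun j => if j ∈ S then !(a i j) else a i j)) := by
    intro b _
    obtain ⟨i, hi⟩ := hcon b
    rw [Finset.mem_biUnion]
    refine ⟨i, Finset.mem_univ _, ?_⟩
    rw [Finset.mem_image]
    refine ⟨mset (a i) b, mem_extreme _ ?_, ?_⟩
    · by_contra h
      push Not at h
      have := hi (by omega)
      omega
    · funext j
      unfold mset
      by_cases hj : a i j = b j
      · simp [hj]
      · simp only [Finset.mem_filter, Finset.mem_univ, true_and, ne_eq, hj, not_false_eq_true,
          if_true]
        revert hj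
        cases a i j <;> cases b j <;> simp
  have h1 := Finset.card_le_card hsub
  have h2 : ((Finset.univ : Finset (Fin 17)).biUnion (fun i => extreme.image
        (fun S => fun j => if j ∈ S then !(a i j) else a i j))).card ≤ 17 * 6428 := by
    refine le_trans Finset.card_biUnion_le ?_
    calc _ ≤ ∑ _i : Fin 17, 6428 :=
          Finset.sum_le_sum (fun i _ => le_trans Finset.card_image_le card_extreme)
      _ = 17 * 6428 := by simp
  have h3 : (Finset.univ : Finset (Fin 17 → Bool)).card = 131072 := by
    rw [Finset.card_univ, Fintype.card_fun]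
    simp
  omega

theorem disc_le_seven (A : Matrix (Fin 17) (Fin 17) ℝ) (hA : IsSignMatrix A) : disc A ≤ 7 := by
  classical
  obtain ⟨b, hb⟩ := exists_good (fun i j => if A i j = 1 then true else false)
  refine disc_le A (fun j => if b j then 1 else -1) (fun j => ?_) 7 ?_
  · dsimp only
    split_ifs
    · exact Or.inl rfl
    · exact Or.inr rfl
  rw [pi_norm_le_iff_of_nonneg (by norm_num)]
  intro i
  have h1 : A.mulVec (fun j => if b j then (1:ℝ) else -1) i
      = 17 - 2 * ((mset (fun j => if A i j = 1 then true else false) b).card : ℝ) := by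
    unfold Matrix.mulVec dotProduct mset
    rw [Finset.card_filter]
    push_cast
    rw [Finset.mul_sum]
    have : (17:ℝ) = ∑ _j : Fin 17, (1:ℝ) := by simp
    rw [this, ← Finset.sum_sub_distrib]
    apply Finset.sum_congr rfl
    intro j _
    have hne : (-1 : ℝ) ≠ 1 := by norm_num
    rcases hA i j with h | h <;> cases hbj : b j <;> simp [h, hne] <;> norm_num
  rw [h1, Real.norm_eq_abs, abs_le]
  have h5 := (hb i).1
  have h6 := (hb i).2
  have h5' : (5:ℝ) ≤ ((mset (fun j => if A i j = 1 then true else false) b).card : ℝ) := by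
    exact_mod_cast h5
  have h6' : ((mset (fun j => if A i j = 1 then true else false) b).card : ℝ) ≤ 12 := by
    exact_mod_cast h6
  constructor <;> linarith

/-- The largest discrepancy of a `17` by `17` sign matrix is `7`, so `C* ≥ 7/√17`. -/
theorem result :
    IsGreatest {r : ℝ | ∃ A : Matrix (Fin 17) (Fin 17) ℝ, IsSignMatrix A ∧ disc A = r} 7 ∧
      ((7 / Real.sqrt 17 : ℝ) : EReal) ≤ Cstar := by
  have h7 : disc A17 = 7 :=
    le_antisymm (disc_le_seven A17 A17_sign) (le_disc A17 7 seven_le)
  refine ⟨⟨⟨A17, A17_sign, h7⟩, ?_⟩, ?_⟩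
  · rintro _ ⟨A, hA, rfl⟩
    exact disc_le_seven A hA
  · apply le_sSup
    refine ⟨17, by norm_num, A17, A17_sign, ?_⟩
    rw [h7]
    norm_num

end Pool.Agent.Results.MP_ad55ca_co.SeventeenBySeventeen
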