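import Pool.Agent.Lib.MP_ad55ca_co.Upper.Large
import Pool.Agent.Lib.MP_ad55ca_co.Upper.Union

/-!
# Every `n` by `n` sign matrix has discrepancy at most `(16/5) √n`

This is an upper bound `C* ≤ 3.2` for the constant in the six standard deviations theorem.
-/

namespace Pool.Agent.Results.MP_ad55ca_co.SixteenFifths

open Pool.Agent.Lib.MP_ad55ca_co.Upper

/-- A square matrix with all entries `1` or `-1`. -/
def IsSignMatrix {n : ℕ} (A : Matrix (Fin n) (Fin n) ℝ) : Prop :=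
  ∀ i j, A i j = 1 ∨ A i j = -1

/-- A vector with all entries `1` or `-1`. -/
def IsSignVector {n : ℕ} (x : Fin n → ℝ) : Prop :=
  ∀ i, x i = 1 ∨ x i = -1

/-- The discrepancy: the least value of the maximum norm of `A x` over sign vectors `x`
(the norm of `Fin n → ℝ` is the maximum norm). -/
noncomputable def disc {n : ℕ} (A : Matrix (Fin n) (Fin n) ℝ) : ℝ :=
  sInf {r : ℝ | ∃ x : Fin n → ℝ, IsSignVector x ∧ ‖A.mulVec x‖ = r}

/-- The constant `C*`: the supremum of `disc A / √n` over all `n ≥ 1` and all `n` by `n` sign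
matrices `A`, taken in the extended reals. -/
noncomputable def Cstar : EReal :=
  sSup {r : EReal | ∃ n : ℕ, 1 ≤ n ∧ ∃ A : Matrix (Fin n) (Fin n) ℝ,
    IsSignMatrix A ∧ ((disc A / Real.sqrt n : ℝ) : EReal) = r}

theorem exists_good {n : ℕ} (hn : 1 ≤ n) (A : Matrix (Fin n) (Fin n) ℝ) (hA : IsSignMatrix A) :
    ∃ x : Fin n → ℝ, IsSignVector x ∧ ∀ i, |A.mulVec x i| ≤ 16 / 5 * Real.sqrt n := by
  have hA' : ∀ i j, A i j ^ 2 = 1 := by
    intro i j
    rcases hA i j with h | h <;> rw [h] <;> norm_num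
  have key : ∃ y : Fin n → ℝ, (∀ j, y j = 1 ∨ y j = -1) ∧
      ∀ i, |row A y i| ≤ (16 / 5) * Real.sqrt n := by
    rcases Nat.lt_or_ge n 84 with h | h
    · refine union_bound hA' hn (c := 16 / 5) (by norm_num) ?_
      have h1 : (n : ℝ) ≤ 83 := by exact_mod_cast (by omega : n ≤ 83)
      have h2 := Real.sum_le_exp_of_nonneg (x := (16 / 5 : ℝ) ^ 2 / 2) (by norm_num) 14
      refine le_trans ?_ h2
      norm_num [Finset.sum_range_succ, Nat.factorial]
      linarith
    · rcases Nat.lt_or_ge n 2731 with h' | h'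
      · exact medium hA' h (by omega)
      · exact large hA' h'
  exact key

theorem disc_le {n : ℕ} (hn : 1 ≤ n) (A : Matrix (Fin n) (Fin n) ℝ) (hA : IsSignMatrix A) :
    disc A ≤ 16 / 5 * Real.sqrt n := by
  obtain ⟨x, hx, h⟩ := exists_good hn A hA
  have h' : ‖A.mulVec x‖ ≤ 16 / 5 * Real.sqrt n := by
    rw [pi_norm_le_iff_of_nonneg (by positivity)]
    exact h
  refine le_trans (csInf_le ⟨0, ?_⟩ ⟨x, hx, rfl⟩) h'
  rintro r ⟨y, -, rfl⟩
  exact norm_nonneg _

/-- **Main result**: `C* ≤ 16/5`, with the sign vectors behind it: for every `n ≥ 1` and every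
`n` by `n` sign matrix `A` there is a sign vector `x` with `|(A x)_i| ≤ (16/5) √n` for all `i`. -/
theorem result :
    Cstar ≤ ((16 / 5 : ℝ) : EReal) ∧
      ∀ n : ℕ, 1 ≤ n → ∀ A : Matrix (Fin n) (Fin n) ℝ, IsSignMatrix A →
        ∃ x : Fin n → ℝ, IsSignVector x ∧ ∀ i, |A.mulVec x i| ≤ 16 / 5 * Real.sqrt n := by
  refine ⟨sSup_le ?_, fun n hn A hA => exists_good hn A hA⟩
  rintro r ⟨n, hn, A, hA, rfl⟩
  rw [EReal.coe_le_coe_iff]
  have hn' : (0 : ℝ) < n := by exact_mod_cast hn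
  rw [div_le_iff₀ (Real.sqrt_pos.mpr hn')]
  exact disc_le hn A hA

end Pool.Agent.Results.MP_ad55ca_co.SixteenFifths
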